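import Pool.Agent.Q108.Cap.Main

/-!
# Biclique covers of capped ordered graphs: every edge is covered
-/

set_option autoImplicit false

namespace Q108.Cap

open Finset Classical

theorem x_lt {v s x M c : ℕ} (h : v / 2 ^ s = 2 * x + c) (hv : v < 2 ^ M) : x < 2 ^ M := by
  have := Nat.div_le_self v (2 ^ s)
  omega

section
variable {n N : ℕ} {E : ℕ → ℕ → Prop} (D : Data n E)

theorem cover_all (hn : n ≤ 2 ^ N) (hE : ∀ a b, E a b → a < n ∧ b < n) (i l : ℕ) (hil : i < l)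
    (h : E i l) :
    (((Rel3 n N (N + 1) (A1 D) (B1 D) i l ∨ Rel3 n N (N + 1) (A2 D) (B2 D) i l) ∨
      Rel3 n N (N + 1) (A3 D) (B3 D) i l) ∨ Rel3 n N (N + 1) (A4 D) (B4 D) i l) ∨
      Rel5 D i l n N (N + 1) := by
  have hi := (hE i l h).1
  have hl := (hE i l h).2
  obtain ⟨T, hT, z, hz1, hz2⟩ := sep_exists N i l hil (lt_of_lt_of_le hl hn)
  have hnext : i / 2 ^ T + 1 = l / 2 ^ T := by omega
  obtain ⟨kd, kl⟩ := D.hk T i l hnext h
  obtain ⟨bd, bl⟩ := D.hb T i l hnext h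
  obtain ⟨m1, m2, m3, m4⟩ := D.hm T i
  obtain ⟨w1, w2, w3, w4⟩ := D.hm' T l
  have hkn := (hE _ _ kd.1).2
  have hbn := (hE _ _ bd.1).1
  have hmn : D.m T i < n := by
    rcases m3 with h1 | h1
    · omega
    · exact (hE _ _ h1).2
  have hpow : 2 ^ (N + 1) = 2 * 2 ^ N := by rw [pow_succ]; ring
  have e1 : 2 * i < 2 ^ (N + 1) := by omega
  have e2 : 2 * D.k T i < 2 ^ (N + 1) := by omega
  have e3 : 2 * D.b T l + 1 < 2 ^ (N + 1) := by omega
  have e4 : 2 * D.m' T l + 1 < 2 ^ (N + 1) := by omega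
  have hbT : D.b T l / 2 ^ T = i / 2 ^ T := by have := bd.2; omega
  have hkT : D.k T i / 2 ^ T = l / 2 ^ T := by have := kd.2; omega
  obtain ⟨s, hs, x, hx1, hx2⟩ := sep_exists (N + 1) (2 * i) (2 * D.b T l + 1) (by omega) (by omega)
  obtain ⟨s', hs', y, hy1, hy2⟩ := sep_exists (N + 1) (2 * D.k T i) (2 * l + 1) (by omega) (by omega)
  by_cases hA : D.b T l < D.m T i
  · -- the last neighbour of `i` in its block is after `b`
    obtain ⟨s₂, hs₂, x₂, hx3, hx4⟩ :=
      sep_exists (N + 1) (2 * D.b T l + 1) (2 * D.m T i) (by omega) (by omega)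
    have hne : s ≠ s₂ := by rintro rfl; omega
    rcases Nat.lt_or_gt_of_ne hne with h1 | h1
    · refine Or.inl (Or.inl (Or.inl (Or.inl
        ⟨T, s, x, hT, hs, x_lt (c := 0) hx1 e1, hi, hl, ⟨hx1, ?_⟩, ⟨bd, hx2⟩⟩)))
      have h2 : (2 * D.b T l + 1) / 2 ^ (s + 1) < 2 * D.m T i / 2 ^ (s + 1) :=
        div_lt_mono (t := s₂) h1 (by omega)
      have h3 : (2 * D.b T l + 1) / 2 ^ (s + 1) = x := by rw [div_succ]; omega
      omega
    · refine Or.inl (Or.inl (Or.inl (Or.inr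
        ⟨T, s₂, x₂, hT, hs₂, x_lt (c := 0) hx3 e3, hi, hl, ⟨hx4, ?_⟩, ⟨bd, hx3⟩⟩)))
      have h2 : 2 * i / 2 ^ (s₂ + 1) < (2 * D.b T l + 1) / 2 ^ (s₂ + 1) :=
        div_lt_mono (t := s) h1 (by omega)
      have h3 : (2 * D.b T l + 1) / 2 ^ (s₂ + 1) = x₂ := by rw [div_succ]; omega
      omega
  · by_cases hB : D.m' T l < D.k T i
    · obtain ⟨s₂, hs₂, x₂, hx3, hx4⟩ :=
        sep_exists (N + 1) (2 * D.m' T l + 1) (2 * D.k T i) (by omega) (by omega)
      have hne : s' ≠ s₂ := by rintro rfl; omega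
      rcases Nat.lt_or_gt_of_ne hne with h1 | h1
      · -- `s' < s₂`
        refine Or.inl (Or.inl (Or.inr
          ⟨T, s', y, hT, hs', x_lt (c := 0) hy1 e2, hi, hl, ⟨kd, hy1⟩, ⟨hy2, ?_⟩⟩))
        have h2 : (2 * D.m' T l + 1) / 2 ^ (s' + 1) < 2 * D.k T i / 2 ^ (s' + 1) :=
          div_lt_mono (t := s₂) h1 (by omega)
        have h3 : 2 * D.k T i / 2 ^ (s' + 1) = y := by rw [div_succ]; omega
        omega
      · refine Or.inl (Or.inr
          ⟨T, s₂, x₂, hT, hs₂, x_lt (c := 0) hx3 e4, hi, hl, ⟨kd, hx4⟩, ⟨hx3, ?_⟩⟩)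
        have h2 : 2 * D.k T i / 2 ^ (s₂ + 1) < (2 * l + 1) / 2 ^ (s₂ + 1) :=
          div_lt_mono (t := s') h1 (by omega)
        have h3 : 2 * D.k T i / 2 ^ (s₂ + 1) = x₂ := by rw [div_succ]; omega
        omega
    · -- the main case
      refine Or.inr ⟨T, s, s', x, y, hT, hs, hs', x_lt (c := 0) hx1 e1, x_lt (c := 0) hy1 e2, hi, hl,
        ⟨by omega, kd, ?_, hx1, hy1, ?_⟩, ⟨by omega, bd, ?_, hx2, hy2, ?_⟩⟩
      · by_contra hcon
        have h1 : 2 * i / 2 ^ s = (2 * D.b T l + 1) / 2 ^ s := by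
          refine div_eq_mono (s := T + 1) (by omega) ?_
          rw [two_mul_div, two_mul_add_div, hbT]
        omega
      · have h1 : i / 2 ^ s = D.b T l / 2 ^ s := by
          rw [← two_mul_div i s, ← two_mul_add_div (D.b T l) s, div_succ, div_succ]; omega
        exact div_between m1 (by omega) h1
      · by_contra hcon
        have h1 : 2 * D.k T i / 2 ^ s' = (2 * l + 1) / 2 ^ s' := by
          refine div_eq_mono (s := T + 1) (by omega) ?_
          rw [two_mul_div, two_mul_add_div, hkT]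
        omega
      · have h1 : D.k T i / 2 ^ s' = l / 2 ^ s' := by
          rw [← two_mul_div (D.k T i) s', ← two_mul_add_div l s', div_succ, div_succ]; omega
        have h2 := div_between (by omega : D.k T i ≤ D.m' T l) w1 h1
        omega

end

/-- Every capped graph on `n ≤ 2 ^ N` vertices has a biclique cover of size at most
`8 n N (N + 1) + 2 n (N + 1) ^ 2`. -/
theorem capped_cover {n N : ℕ} {E : ℕ → ℕ → Prop} (hn : n ≤ 2 ^ N)
    (hE : ∀ a b, E a b → a < n ∧ b < n)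
    (cap : ∀ i j k l, i < j → j < k → k < l → E i k → E j l → E i l) :
    GoodCover n E (fun i l => i < l ∧ E i l)
      (8 * (n * (N * (N + 1))) + 2 * (n * ((N + 1) * (N + 1)))) := by
  obtain ⟨D⟩ := exists_data n E hE
  have h := ((((fam1 (N := N) (M := N + 1) D cap).union (fam2 (N := N) (M := N + 1) D cap)).union
    (fam3' (N := N) (M := N + 1) D cap)).union (fam4 (N := N) (M := N + 1) D cap)).union
    (fam5 (N := N) (M := N + 1) D cap)
  obtain ⟨L, h1, h2, h3⟩ := h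
  refine ⟨L, h1, fun i l hil => h2 i l (cover_all D hn hE i l hil.1 hil.2), h3.trans ?_⟩
  omega

end Q108.Cap
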