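import Mathlib

/-!
# Biclique covers of capped ordered graphs: the combinatorial core on natural numbers
-/

set_option autoImplicit false

namespace Q108.Cap

open Finset

theorem sep_exists (M : ℕ) : ∀ a b : ℕ, a < b → b < 2 ^ M →
    ∃ s, s < M ∧ ∃ x, a / 2 ^ s = 2 * x ∧ b / 2 ^ s = 2 * x + 1 := by
  induction M with
  | zero => intro a b h1 h2; simp at h2; omega
  | succ M ih =>
    intro a b h1 h2
    by_cases h : a / 2 = b / 2
    · exact ⟨0, by omega, a / 2, by simp; omega, by simp; omega⟩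
    · obtain ⟨s, hs, x, hx1, hx2⟩ := ih (a / 2) (b / 2) (by omega) (by rw [pow_succ] at h2; omega)
      refine ⟨s + 1, by omega, x, ?_, ?_⟩
      · rw [pow_succ', ← Nat.div_div_eq_div_mul]; exact hx1
      · rw [pow_succ', ← Nat.div_div_eq_div_mul]; exact hx2

theorem div_pow_add (a s t : ℕ) : a / 2 ^ (s + t) = a / 2 ^ s / 2 ^ t := by
  rw [pow_add, Nat.div_div_eq_div_mul]

theorem div_eq_mono {a b s t : ℕ} (hst : s ≤ t) (h : a / 2 ^ s = b / 2 ^ s) :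
    a / 2 ^ t = b / 2 ^ t := by
  obtain ⟨d, rfl⟩ := Nat.exists_eq_add_of_le hst
  rw [div_pow_add, div_pow_add, h]

theorem div_lt_mono {a b s t : ℕ} (hst : s ≤ t) (h : a / 2 ^ t < b / 2 ^ t) :
    a / 2 ^ s < b / 2 ^ s := by
  by_contra hcon
  obtain ⟨d, rfl⟩ := Nat.exists_eq_add_of_le hst
  rw [div_pow_add, div_pow_add] at h
  have := Nat.div_le_div_right (c := 2 ^ d) (not_lt.1 hcon)
  omega

theorem lt_of_div_lt {a b s : ℕ} (h : a / 2 ^ s < b / 2 ^ s) : a < b := by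
  have := div_lt_mono (Nat.zero_le s) h
  simpa using this

theorem div_succ (a s : ℕ) : a / 2 ^ (s + 1) = a / 2 ^ s / 2 := by
  rw [div_pow_add, pow_one]

theorem two_mul_div (a s : ℕ) : 2 * a / 2 ^ (s + 1) = a / 2 ^ s := by
  rw [pow_succ', ← Nat.div_div_eq_div_mul]; congr 1; omega

theorem two_mul_add_div (a s : ℕ) : (2 * a + 1) / 2 ^ (s + 1) = a / 2 ^ s := by
  rw [pow_succ', ← Nat.div_div_eq_div_mul]; congr 1; omega

/-- between two numbers with the same quotient -/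
theorem div_between {a b c s : ℕ} (h1 : a ≤ b) (h2 : b ≤ c) (h : a / 2 ^ s = c / 2 ^ s) :
    b / 2 ^ s = a / 2 ^ s := by
  have h3 := Nat.div_le_div_right (c := 2 ^ s) h1
  have h4 := Nat.div_le_div_right (c := 2 ^ s) h2
  omega

theorem sum_card_le {ι κ : Type} (X : Finset ι) (A : ι → Finset ℕ) (n c : ℕ)
    (hA : ∀ x ∈ X, A x ⊆ range n) (f : ι → κ) (F : Finset κ) (hF : F.card ≤ c)
    (hf : ∀ v, ∀ x ∈ X, v ∈ A x → f x ∈ F)
    (hinj : ∀ v, ∀ x ∈ X, ∀ y ∈ X, v ∈ A x → v ∈ A y → f x = f y → x = y) :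
    ∑ x ∈ X, (A x).card ≤ n * c := by
  classical
  have h1 : ∀ x ∈ X, (A x).card = ∑ v ∈ range n, if v ∈ A x then 1 else 0 := by
    intro x hx
    rw [Finset.sum_ite_mem, Finset.inter_eq_right.2 (hA x hx)]
    simp
  rw [Finset.sum_congr rfl h1, Finset.sum_comm]
  have h2 : ∀ v ∈ range n, (∑ x ∈ X, if v ∈ A x then 1 else 0) ≤ c := by
    intro v _
    rw [← Finset.sum_filter, Finset.sum_const, smul_eq_mul, mul_one]
    refine le_trans (Finset.card_le_card_of_injOn f ?_ ?_) hF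
    · intro x hx
      rw [Finset.mem_coe, Finset.mem_filter] at hx
      exact hf v x hx.1 hx.2
    · intro x hx y hy hxy
      rw [Finset.mem_coe, Finset.mem_filter] at hx hy
      exact hinj v x hx.1 y hy.1 hx.2 hy.2 hxy
  refine le_trans (Finset.sum_le_sum h2) ?_
  simp

/-- The pairs satisfying `R` are covered by bicliques of `E` of total size at most `c`. -/
def GoodCover (n : ℕ) (E R : ℕ → ℕ → Prop) (c : ℕ) : Prop :=
  ∃ L : List (Finset ℕ × Finset ℕ),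
    (∀ p ∈ L, p.1 ⊆ range n ∧ p.2 ⊆ range n ∧ ∀ a ∈ p.1, ∀ b ∈ p.2, a < b ∧ E a b) ∧
    (∀ a b, R a b → ∃ p ∈ L, a ∈ p.1 ∧ b ∈ p.2) ∧
    (L.map fun p => p.1.card + p.2.card).sum ≤ c

theorem GoodCover.union {n : ℕ} {E R₁ R₂ : ℕ → ℕ → Prop} {c₁ c₂ : ℕ}
    (h₁ : GoodCover n E R₁ c₁) (h₂ : GoodCover n E R₂ c₂) :
    GoodCover n E (fun a b => R₁ a b ∨ R₂ a b) (c₁ + c₂) := by
  obtain ⟨L₁, a1, a2, a3⟩ := h₁
  obtain ⟨L₂, b1, b2, b3⟩ := h₂
  refine ⟨L₁ ++ L₂, ?_, ?_, ?_⟩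
  · intro p hp
    rcases List.mem_append.1 hp with hp | hp
    · exact a1 p hp
    · exact b1 p hp
  · rintro a b (h | h)
    · obtain ⟨p, hp, h⟩ := a2 a b h
      exact ⟨p, List.mem_append_left _ hp, h⟩
    · obtain ⟨p, hp, h⟩ := b2 a b h
      exact ⟨p, List.mem_append_right _ hp, h⟩
  · rw [List.map_append, List.sum_append]
    omega

theorem GoodCover.of_family {n : ℕ} {E R : ℕ → ℕ → Prop} {ι κ : Type} (X : Finset ι)
    (A B : ι → Finset ℕ) (c : ℕ) (f : ι → κ) (F : Finset κ) (hF : F.card ≤ c)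
    (hA : ∀ x ∈ X, A x ⊆ range n) (hB : ∀ x ∈ X, B x ⊆ range n)
    (hAf : ∀ v, ∀ x ∈ X, v ∈ A x → f x ∈ F) (hBf : ∀ v, ∀ x ∈ X, v ∈ B x → f x ∈ F)
    (hAi : ∀ v, ∀ x ∈ X, ∀ y ∈ X, v ∈ A x → v ∈ A y → f x = f y → x = y)
    (hBi : ∀ v, ∀ x ∈ X, ∀ y ∈ X, v ∈ B x → v ∈ B y → f x = f y → x = y)
    (hE : ∀ x ∈ X, ∀ a ∈ A x, ∀ b ∈ B x, a < b ∧ E a b)
    (hR : ∀ a b, R a b → ∃ x ∈ X, a ∈ A x ∧ b ∈ B x) :
    GoodCover n E R (n * c + n * c) := by
  refine ⟨X.toList.map fun x => (A x, B x), ?_, ?_, ?_⟩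
  · intro p hp
    rw [List.mem_map] at hp
    obtain ⟨x, hx, rfl⟩ := hp
    rw [Finset.mem_toList] at hx
    exact ⟨hA x hx, hB x hx, hE x hx⟩
  · intro a b h
    obtain ⟨x, hx, h1⟩ := hR a b h
    exact ⟨(A x, B x), List.mem_map.2 ⟨x, Finset.mem_toList.2 hx, rfl⟩, h1⟩
  · rw [List.map_map, Finset.sum_map_toList]
    change ∑ x ∈ X, ((A x).card + (B x).card) ≤ _
    rw [Finset.sum_add_distrib]
    exact Nat.add_le_add (sum_card_le X A n c hA f F hF hAf hAi)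
      (sum_card_le X B n c hB f F hF hBf hBi)

end Q108.Cap
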