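import Pool.Agent.Q108.Cap.Cover

/-!
# Biclique covers of capped ordered graphs: the families
-/

set_option autoImplicit false

namespace Q108.Cap

open Finset Classical

/-- The data used to build the cover. For a scale `T` and a vertex `v`: `k T v` is the first
neighbour of `v` in the next block of length `2 ^ T`, `b T v` the last neighbour in the previous
block, `m T v` the last neighbour of `v` in its own block (or `v`), `m' T v` the first neighbour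
of `v` in its own block (or `v`). -/
structure Data (n : ℕ) (E : ℕ → ℕ → Prop) where
  k : ℕ → ℕ → ℕ
  b : ℕ → ℕ → ℕ
  m : ℕ → ℕ → ℕ
  m' : ℕ → ℕ → ℕ
  hk : ∀ T i l, i / 2 ^ T + 1 = l / 2 ^ T → E i l →
    (E i (k T i) ∧ k T i / 2 ^ T = i / 2 ^ T + 1) ∧ k T i ≤ l
  hb : ∀ T i l, i / 2 ^ T + 1 = l / 2 ^ T → E i l →
    (E (b T l) l ∧ b T l / 2 ^ T + 1 = l / 2 ^ T) ∧ i ≤ b T l
  hm : ∀ T i, i ≤ m T i ∧ m T i / 2 ^ T = i / 2 ^ T ∧ (m T i = i ∨ E i (m T i)) ∧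
    ∀ x, i < x → x / 2 ^ T = i / 2 ^ T → E i x → x ≤ m T i
  hm' : ∀ T l, m' T l ≤ l ∧ m' T l / 2 ^ T = l / 2 ^ T ∧ (m' T l = l ∨ E (m' T l) l) ∧
    ∀ x, x < l → x / 2 ^ T = l / 2 ^ T → E x l → m' T l ≤ x

theorem exists_data (n : ℕ) (E : ℕ → ℕ → Prop) (hE : ∀ a b, E a b → a < n ∧ b < n) :
    Nonempty (Data n E) := by
  have h1 : ∀ T i, ∃ k, ∀ l, i / 2 ^ T + 1 = l / 2 ^ T → E i l →
      (E i k ∧ k / 2 ^ T = i / 2 ^ T + 1) ∧ k ≤ l := by
    intro T i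
    by_cases h : ∃ l, i / 2 ^ T + 1 = l / 2 ^ T ∧ E i l
    · refine ⟨Nat.find h, fun l h2 h3 => ⟨⟨(Nat.find_spec h).2, (Nat.find_spec h).1.symm⟩, ?_⟩⟩
      exact Nat.find_min' h ⟨h2, h3⟩
    · exact ⟨0, fun l h2 h3 => absurd ⟨l, h2, h3⟩ h⟩
  have h2 : ∀ T l, ∃ b, ∀ i, i / 2 ^ T + 1 = l / 2 ^ T → E i l →
      (E b l ∧ b / 2 ^ T + 1 = l / 2 ^ T) ∧ i ≤ b := by
    intro T l
    by_cases h : ((range n).filter fun i => i / 2 ^ T + 1 = l / 2 ^ T ∧ E i l).Nonempty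
    · obtain ⟨b, hb1, hb2⟩ := Finset.exists_max_image _ id h
      rw [Finset.mem_filter] at hb1
      refine ⟨b, fun i h3 h4 => ⟨⟨hb1.2.2, hb1.2.1⟩, ?_⟩⟩
      exact hb2 i (Finset.mem_filter.2 ⟨Finset.mem_range.2 (hE i l h4).1, h3, h4⟩)
    · refine ⟨0, fun i h3 h4 => absurd ⟨i, ?_⟩ h⟩
      exact Finset.mem_filter.2 ⟨Finset.mem_range.2 (hE i l h4).1, h3, h4⟩
  have h3 : ∀ T i, ∃ m, i ≤ m ∧ m / 2 ^ T = i / 2 ^ T ∧ (m = i ∨ E i m) ∧
      ∀ x, i < x → x / 2 ^ T = i / 2 ^ T → E i x → x ≤ m := by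
    intro T i
    by_cases h : ((range n).filter fun x => i < x ∧ x / 2 ^ T = i / 2 ^ T ∧ E i x).Nonempty
    · obtain ⟨m, hm1, hm2⟩ := Finset.exists_max_image _ id h
      rw [Finset.mem_filter] at hm1
      refine ⟨m, hm1.2.1.le, hm1.2.2.1, Or.inr hm1.2.2.2, fun x a1 a2 a3 => ?_⟩
      exact hm2 x (Finset.mem_filter.2 ⟨Finset.mem_range.2 (hE i x a3).2, a1, a2, a3⟩)
    · refine ⟨i, le_rfl, rfl, Or.inl rfl, fun x a1 a2 a3 => absurd ⟨x, ?_⟩ h⟩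
      exact Finset.mem_filter.2 ⟨Finset.mem_range.2 (hE i x a3).2, a1, a2, a3⟩
  have h4 : ∀ T l, ∃ m, m ≤ l ∧ m / 2 ^ T = l / 2 ^ T ∧ (m = l ∨ E m l) ∧
      ∀ x, x < l → x / 2 ^ T = l / 2 ^ T → E x l → m ≤ x := by
    intro T l
    by_cases h : ∃ x, x < l ∧ x / 2 ^ T = l / 2 ^ T ∧ E x l
    · refine ⟨Nat.find h, (Nat.find_spec h).1.le, (Nat.find_spec h).2.1,
        Or.inr (Nat.find_spec h).2.2, fun x a1 a2 a3 => Nat.find_min' h ⟨a1, a2, a3⟩⟩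
    · exact ⟨l, le_rfl, rfl, Or.inl rfl, fun x a1 a2 a3 => absurd ⟨x, a1, a2, a3⟩ h⟩
  choose k hk using h1
  choose b hb using h2
  choose m hm using h3
  choose m' hm' using h4
  exact ⟨⟨k, b, m, m', hk, fun T i l => hb T l i, hm, hm'⟩⟩

section
variable {n N : ℕ} {E : ℕ → ℕ → Prop} (D : Data n E)

/-- `v` has a neighbour in the next block -/
def Data.kd (T v : ℕ) : Prop := E v (D.k T v) ∧ D.k T v / 2 ^ T = v / 2 ^ T + 1

/-- `v` has a neighbour in the previous block -/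
def Data.bd (T v : ℕ) : Prop := E (D.b T v) v ∧ D.b T v / 2 ^ T + 1 = v / 2 ^ T

variable (cap : ∀ i j k l, i < j → j < k → k < l → E i k → E j l → E i l)

include cap in
theorem edgeA {T i l : ℕ} (hb : D.bd T l) (h1 : i ≤ D.b T l) (h2 : D.b T l < D.m T i) :
    i < l ∧ E i l := by
  obtain ⟨a1, a2, a3, -⟩ := D.hm T i
  have h3 := div_between h1 h2.le a2.symm
  have h4 : i < l := lt_of_div_lt (s := T) (by have := hb.2; omega)
  refine ⟨h4, ?_⟩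
  rcases h1.eq_or_lt with h5 | h5
  · rw [h5]; exact hb.1
  · have h6 : D.m T i < l := lt_of_div_lt (s := T) (by have := hb.2; omega)
    exact cap i (D.b T l) (D.m T i) l h5 h2 h6 (a3.resolve_left (by omega)) hb.1

include cap in
theorem edgeB {T i l : ℕ} (hk : D.kd T i) (h1 : D.m' T l < D.k T i) (h2 : D.k T i ≤ l) :
    i < l ∧ E i l := by
  obtain ⟨a1, a2, a3, -⟩ := D.hm' T l
  have h3 := div_between h1.le h2 a2
  have h4 : i < D.m' T l := lt_of_div_lt (s := T) (by have := hk.2; omega)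
  refine ⟨by omega, ?_⟩
  rcases h2.eq_or_lt with h5 | h5
  · rw [← h5]; exact hk.1
  · exact cap i (D.m' T l) (D.k T i) l h4 h1 h5 hk.1 (a3.resolve_left (by omega))

include cap in
theorem edgeC {T i l : ℕ} (hk : D.kd T i) (hb : D.bd T l) (h1 : i ≤ D.b T l)
    (h2 : D.k T i ≤ l) (h3 : i / 2 ^ T = D.b T l / 2 ^ T) : i < l ∧ E i l := by
  have h4 : D.b T l < D.k T i := lt_of_div_lt (s := T) (by have := hk.2; omega)
  refine ⟨by omega, ?_⟩
  rcases h1.eq_or_lt with h5 | h5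
  · rw [h5]; exact hb.1
  · rcases h2.eq_or_lt with h6 | h6
    · rw [← h6]; exact hk.1
    · exact cap i (D.b T l) (D.k T i) l h5 h4 h6 hk.1 hb.1

theorem teleA {T T' i s : ℕ} (hT : T < T') (hk : D.kd T i) (hp : i / 2 ^ T % 2 = 0) (hs : s ≤ T)
    (hm : D.m T' i / 2 ^ s = i / 2 ^ s) : False := by
  obtain ⟨a1, a2, a3, a4⟩ := D.hm T' i
  have h1 : D.k T i / 2 ^ (T + 1) = i / 2 ^ (T + 1) := by
    rw [div_succ, div_succ, hk.2]; omega
  have h2 : D.k T i / 2 ^ T' = i / 2 ^ T' := div_eq_mono hT h1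
  have h3 : i < D.k T i := lt_of_div_lt (s := T) (by have := hk.2; omega)
  have h4 := a4 _ h3 h2 hk.1
  have h5 := div_between h3.le h4 hm.symm
  have h6 := div_eq_mono hs h5
  have := hk.2
  omega

theorem teleB {T T' l s : ℕ} (hT : T < T') (hb : D.bd T l) (hp : l / 2 ^ T % 2 = 1) (hs : s ≤ T)
    (hm : D.m' T' l / 2 ^ s = l / 2 ^ s) : False := by
  obtain ⟨a1, a2, a3, a4⟩ := D.hm' T' l
  have h1 : D.b T l / 2 ^ (T + 1) = l / 2 ^ (T + 1) := by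
    rw [div_succ, div_succ]; have := hb.2; omega
  have h2 : D.b T l / 2 ^ T' = l / 2 ^ T' := div_eq_mono hT h1
  have h3 : D.b T l < l := lt_of_div_lt (s := T) (by have := hb.2; omega)
  have h4 := a4 _ h3 h2 hb.1
  have h5 := div_between h4 h3.le hm
  have h6 := div_eq_mono (a := D.b T l) (b := l) hs (h5.trans hm)
  have := hb.2
  omega

end

end Q108.Cap
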