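import Pool.Agent.Q108.Cap.Families

/-!
# Biclique covers of capped ordered graphs: the cover
-/

set_option autoImplicit false

namespace Q108.Cap

open Finset Classical

section
variable {n N M : ℕ} {E : ℕ → ℕ → Prop} (D : Data n E)
variable (cap : ∀ i j k l, i < j → j < k → k < l → E i k → E j l → E i l)

/-- families indexed by `(T, s, x)` -/
theorem fam3 (R : ℕ → ℕ → Prop) (PA PB : ℕ → ℕ → ℕ → ℕ → Prop)
    (hA : ∀ v T s x y, PA v T s x → PA v T s y → x = y)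
    (hB : ∀ v T s x y, PB v T s x → PB v T s y → x = y)
    (hE : ∀ T s x i l, PA i T s x → PB l T s x → i < l ∧ E i l)
    (hR : ∀ i l, R i l → ∃ T s x, T < N ∧ s < M ∧ x < 2 ^ M ∧ i < n ∧ l < n ∧ PA i T s x ∧
      PB l T s x) :
    GoodCover n E R (n * (N * M) + n * (N * M)) := by
  refine GoodCover.of_family (range N ×ˢ range M ×ˢ range (2 ^ M))
    (fun p => (range n).filter fun v => PA v p.1 p.2.1 p.2.2)
    (fun p => (range n).filter fun v => PB v p.1 p.2.1 p.2.2)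
    (N * M) (fun p => (p.1, p.2.1)) (range N ×ˢ range M) (by simp) ?_ ?_ ?_ ?_ ?_ ?_ ?_ ?_
  · intro x _; exact Finset.filter_subset _ _
  · intro x _; exact Finset.filter_subset _ _
  · intro v x hx _
    simp only [Finset.mem_product] at hx ⊢
    exact ⟨hx.1, hx.2.1⟩
  · intro v x hx _
    simp only [Finset.mem_product] at hx ⊢
    exact ⟨hx.1, hx.2.1⟩
  · rintro v ⟨T, s, x⟩ _ ⟨T', s', y⟩ _ h1 h2 h3
    rw [Finset.mem_filter] at h1 h2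
    simp only [Prod.mk.injEq] at h3
    obtain ⟨rfl, rfl⟩ := h3
    rw [hA v T s x y h1.2 h2.2]
  · rintro v ⟨T, s, x⟩ _ ⟨T', s', y⟩ _ h1 h2 h3
    rw [Finset.mem_filter] at h1 h2
    simp only [Prod.mk.injEq] at h3
    obtain ⟨rfl, rfl⟩ := h3
    rw [hB v T s x y h1.2 h2.2]
  · rintro ⟨T, s, x⟩ _ i hi l hl
    rw [Finset.mem_filter] at hi hl
    exact hE T s x i l hi.2 hl.2
  · intro i l h
    obtain ⟨T, s, x, h1, h2, h3, h4, h5, h6, h7⟩ := hR i l h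
    refine ⟨(T, s, x), by simp [h1, h2, h3], ?_, ?_⟩
    · rw [Finset.mem_filter]; exact ⟨Finset.mem_range.2 h4, h6⟩
    · rw [Finset.mem_filter]; exact ⟨Finset.mem_range.2 h5, h7⟩

/-- the relation covered by a family indexed by `(T, s, x)` -/
def Rel3 (n N M : ℕ) (PA PB : ℕ → ℕ → ℕ → ℕ → Prop) (i l : ℕ) : Prop :=
  ∃ T s x, T < N ∧ s < M ∧ x < 2 ^ M ∧ i < n ∧ l < n ∧ PA i T s x ∧ PB l T s x

def A1 (v T s x : ℕ) : Prop := 2 * v / 2 ^ s = 2 * x ∧ x < 2 * D.m T v / 2 ^ (s + 1)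
def B1 (v T s x : ℕ) : Prop := D.bd T v ∧ (2 * D.b T v + 1) / 2 ^ s = 2 * x + 1
def A2 (v T s x : ℕ) : Prop := 2 * D.m T v / 2 ^ s = 2 * x + 1 ∧ 2 * v / 2 ^ (s + 1) < x
def B2 (v T s x : ℕ) : Prop := D.bd T v ∧ (2 * D.b T v + 1) / 2 ^ s = 2 * x
def A3 (v T s x : ℕ) : Prop := D.kd T v ∧ 2 * D.k T v / 2 ^ s = 2 * x
def B3 (v T s x : ℕ) : Prop :=
  (2 * v + 1) / 2 ^ s = 2 * x + 1 ∧ (2 * D.m' T v + 1) / 2 ^ (s + 1) < x
def A4 (v T s x : ℕ) : Prop := D.kd T v ∧ 2 * D.k T v / 2 ^ s = 2 * x + 1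
def B4 (v T s x : ℕ) : Prop :=
  (2 * D.m' T v + 1) / 2 ^ s = 2 * x ∧ x < (2 * v + 1) / 2 ^ (s + 1)

include cap in
theorem fam1 : GoodCover n E (Rel3 n N M (A1 D) (B1 D)) (n * (N * M) + n * (N * M)) := by
  refine fam3 _ (A1 D) (B1 D) ?_ ?_ ?_ (fun i l h => h)
  · rintro v T s x y ⟨h1, -⟩ ⟨h2, -⟩; omega
  · rintro v T s x y ⟨-, h1⟩ ⟨-, h2⟩; omega
  · rintro T s x i l ⟨h1, h2⟩ ⟨h3, h4⟩
    have h5 : 2 * i < 2 * D.b T l + 1 := lt_of_div_lt (s := s) (by omega)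
    have h6 : 2 * D.b T l + 1 < 2 * D.m T i := lt_of_div_lt (s := s + 1) (by
      rw [div_succ (2 * D.b T l + 1)]; omega)
    exact edgeA D cap h3 (by omega) (by omega)

include cap in
theorem fam2 : GoodCover n E (Rel3 n N M (A2 D) (B2 D)) (n * (N * M) + n * (N * M)) := by
  refine fam3 _ (A2 D) (B2 D) ?_ ?_ ?_ (fun i l h => h)
  · rintro v T s x y ⟨h1, -⟩ ⟨h2, -⟩; omega
  · rintro v T s x y ⟨-, h1⟩ ⟨-, h2⟩; omega
  · rintro T s x i l ⟨h1, h2⟩ ⟨h3, h4⟩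
    have h5 : 2 * D.b T l + 1 < 2 * D.m T i := lt_of_div_lt (s := s) (by omega)
    have h6 : 2 * i < 2 * D.b T l + 1 := lt_of_div_lt (s := s + 1) (by
      rw [div_succ (2 * D.b T l + 1)]; omega)
    exact edgeA D cap h3 (by omega) (by omega)

include cap in
theorem fam3' : GoodCover n E (Rel3 n N M (A3 D) (B3 D)) (n * (N * M) + n * (N * M)) := by
  refine fam3 _ (A3 D) (B3 D) ?_ ?_ ?_ (fun i l h => h)
  · rintro v T s x y ⟨-, h1⟩ ⟨-, h2⟩; omega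
  · rintro v T s x y ⟨h1, -⟩ ⟨h2, -⟩; omega
  · rintro T s x i l ⟨h1, h2⟩ ⟨h3, h4⟩
    have h5 : 2 * D.k T i < 2 * l + 1 := lt_of_div_lt (s := s) (by omega)
    have h6 : 2 * D.m' T l + 1 < 2 * D.k T i := lt_of_div_lt (s := s + 1) (by
      rw [div_succ (2 * D.k T i)]; omega)
    exact edgeB D cap h1 (by omega) (by omega)

include cap in
theorem fam4 : GoodCover n E (Rel3 n N M (A4 D) (B4 D)) (n * (N * M) + n * (N * M)) := by
  refine fam3 _ (A4 D) (B4 D) ?_ ?_ ?_ (fun i l h => h)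
  · rintro v T s x y ⟨-, h1⟩ ⟨-, h2⟩; omega
  · rintro v T s x y ⟨h1, -⟩ ⟨h2, -⟩; omega
  · rintro T s x i l ⟨h1, h2⟩ ⟨h3, h4⟩
    have h5 : 2 * D.m' T l + 1 < 2 * D.k T i := lt_of_div_lt (s := s) (by omega)
    have h6 : 2 * D.k T i < 2 * l + 1 := lt_of_div_lt (s := s + 1) (by
      rw [div_succ (2 * D.k T i)]; omega)
    exact edgeB D cap h1 (by omega) (by omega)

def A5 (v T s s' x y : ℕ) : Prop := v / 2 ^ T % 2 = 0 ∧ D.kd T v ∧ s ≤ T ∧ 2 * v / 2 ^ s = 2 * x ∧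
  2 * D.k T v / 2 ^ s' = 2 * y ∧ D.m T v / 2 ^ s = v / 2 ^ s
def B5 (v T s s' x y : ℕ) : Prop := v / 2 ^ T % 2 = 1 ∧ D.bd T v ∧ s' ≤ T ∧
  (2 * D.b T v + 1) / 2 ^ s = 2 * x + 1 ∧ (2 * v + 1) / 2 ^ s' = 2 * y + 1 ∧
  D.m' T v / 2 ^ s' = v / 2 ^ s'

def Rel5 (i l : ℕ) (n N M : ℕ) : Prop :=
  ∃ T s s' x y, T < N ∧ s < M ∧ s' < M ∧ x < 2 ^ M ∧ y < 2 ^ M ∧ i < n ∧ l < n ∧
    A5 D i T s s' x y ∧ B5 D l T s s' x y

include cap in
theorem fam5 : GoodCover n E (fun i l => Rel5 D i l n N M) (n * (M * M) + n * (M * M)) := by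
  refine GoodCover.of_family
    (range N ×ˢ range M ×ˢ range M ×ˢ range (2 ^ M) ×ˢ range (2 ^ M))
    (fun p => (range n).filter fun v => A5 D v p.1 p.2.1 p.2.2.1 p.2.2.2.1 p.2.2.2.2)
    (fun p => (range n).filter fun v => B5 D v p.1 p.2.1 p.2.2.1 p.2.2.2.1 p.2.2.2.2)
    (M * M) (fun p => (p.2.1, p.2.2.1)) (range M ×ˢ range M) (by simp) ?_ ?_ ?_ ?_ ?_ ?_ ?_ ?_
  · intro x _; exact Finset.filter_subset _ _
  · intro x _; exact Finset.filter_subset _ _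
  · intro v x hx _
    simp only [Finset.mem_product] at hx ⊢
    exact ⟨hx.2.1, hx.2.2.1⟩
  · intro v x hx _
    simp only [Finset.mem_product] at hx ⊢
    exact ⟨hx.2.1, hx.2.2.1⟩
  · rintro v ⟨T, s, s', x, y⟩ _ ⟨T₁, s₁, s₁', x₁, y₁⟩ _ h1 h2 h3
    rw [Finset.mem_filter] at h1 h2
    simp only [Prod.mk.injEq] at h3
    obtain ⟨rfl, rfl⟩ := h3
    obtain ⟨a1, a2, a3, a4, a5, a6⟩ := h1.2
    obtain ⟨b1, b2, b3, b4, b5, b6⟩ := h2.2
    simp only at a1 a2 a3 a4 a5 a6 b1 b2 b3 b4 b5 b6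
    have hT : T = T₁ := by
      rcases lt_trichotomy T T₁ with h | h | h
      · exact (teleA D h a2 a1 a3 b6).elim
      · exact h
      · exact (teleA D h b2 b1 b3 a6).elim
    subst hT
    have hx : x = x₁ := by omega
    have hy : y = y₁ := by omega
    rw [hx, hy]
  · rintro v ⟨T, s, s', x, y⟩ _ ⟨T₁, s₁, s₁', x₁, y₁⟩ _ h1 h2 h3
    rw [Finset.mem_filter] at h1 h2
    simp only [Prod.mk.injEq] at h3
    obtain ⟨rfl, rfl⟩ := h3
    obtain ⟨a1, a2, a3, a4, a5, a6⟩ := h1.2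
    obtain ⟨b1, b2, b3, b4, b5, b6⟩ := h2.2
    simp only at a1 a2 a3 a4 a5 a6 b1 b2 b3 b4 b5 b6
    have hT : T = T₁ := by
      rcases lt_trichotomy T T₁ with h | h | h
      · exact (teleB D h a2 a1 a3 b6).elim
      · exact h
      · exact (teleB D h b2 b1 b3 a6).elim
    subst hT
    have hx : x = x₁ := by omega
    have hy : y = y₁ := by omega
    rw [hx, hy]
  · rintro ⟨T, s, s', x, y⟩ _ i hi l hl
    rw [Finset.mem_filter] at hi hl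
    obtain ⟨a1, a2, a3, a4, a5, a6⟩ := hi.2
    obtain ⟨b1, b2, b3, b4, b5, b6⟩ := hl.2
    simp only at a1 a2 a3 a4 a5 a6 b1 b2 b3 b4 b5 b6
    have h5 : 2 * i < 2 * D.b T l + 1 := lt_of_div_lt (s := s) (by omega)
    have h6 : 2 * D.k T i < 2 * l + 1 := lt_of_div_lt (s := s') (by omega)
    refine edgeC D cap a2 b2 (by omega) (by omega) ?_
    refine div_eq_mono a3 ?_
    rw [← two_mul_div i s, ← two_mul_add_div (D.b T l) s, div_succ, div_succ]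
    omega
  · rintro i l ⟨T, s, s', x, y, h1, h2, h3, h4, h5, h6, h7, h8, h9⟩
    refine ⟨(T, s, s', x, y), by simp [h1, h2, h3, h4, h5], ?_, ?_⟩
    · rw [Finset.mem_filter]; exact ⟨Finset.mem_range.2 h6, h8⟩
    · rw [Finset.mem_filter]; exact ⟨Finset.mem_range.2 h7, h9⟩

end

end Q108.Cap
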